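import Pool.Agent.Helper29.CY.Goals

/-!
# Packet PL3 (project CY, MP_eaa1a7_co): three lines in a plane
-/

set_option autoImplicit false

open Module

namespace Pool.Agent.Helper71.CY.PL3

theorem t : Pool.Agent.Helper29.CY.S_PL3 := by
  intro V _ _ ι E u s hE hu hn hi
  classical
  have : FiniteDimensional ℝ E := FiniteDimensional.of_finrank_eq_succ hE
  let b : OrthonormalBasis (Fin 2) ℝ E := (stdOrthonormalBasis ℝ E).reindex (finCongr hE)
  let a : ι → ℝ := fun i => inner ℝ (u i) (b 0 : V)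
  let c : ι → ℝ := fun i => inner ℝ (u i) (b 1 : V)
  have key : ∀ i ∈ s, ∀ k ∈ s, inner ℝ (u i) (u k) = a i * a k + c i * c k := by
    intro i his k hks
    have h := OrthonormalBasis.sum_inner_mul_inner b (⟨u i, hu i his⟩ : E) ⟨u k, hu k hks⟩
    rw [Fin.sum_univ_two] at h
    simp only [Submodule.coe_inner] at h
    rw [← h]
    show inner ℝ (u i) (b 0 : V) * inner ℝ (b 0 : V) (u k) +
      inner ℝ (u i) (b 1 : V) * inner ℝ (b 1 : V) (u k) = _
    rw [real_inner_comm (u k) (b 0 : V), real_inner_comm (u k) (b 1 : V)]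
  have hone : ∀ i ∈ s, a i * a i + c i * c i = 1 := by
    intro i his
    rw [← key i his i his, real_inner_self_eq_norm_sq, hn i his]
    norm_num
  have hle : ∀ i ∈ s, ∀ k ∈ s,
      (a i ^ 2 - c i ^ 2) * (a k ^ 2 - c k ^ 2) + (2 * a i * c i) * (2 * a k * c k) ≤
        (-1 / 2 : ℝ) + if i = k then 3 / 2 else 0 := by
    intro i his k hks
    have e1 : (a i ^ 2 - c i ^ 2) * (a k ^ 2 - c k ^ 2) + (2 * a i * c i) * (2 * a k * c k) =
        2 * (inner ℝ (u i) (u k)) ^ 2 - 1 := by
      rw [key i his k hks]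
      have h1 := hone i his
      have h2 := hone k hks
      have : (a i * a i + c i * c i) * (a k * a k + c k * c k) = 1 := by rw [h1, h2]; ring
      linear_combination -this
    rw [e1]
    by_cases h : i = k
    · subst h
      rw [real_inner_self_eq_norm_sq, hn i his]
      norm_num
    · rw [if_neg h]
      have h3 := hi i his k hks h
      have h4 := abs_le.mp h3
      nlinarith [h4.1, h4.2]
  have hsum : (0 : ℝ) ≤ ∑ i ∈ s, ∑ k ∈ s, ((-1 / 2 : ℝ) + if i = k then 3 / 2 else 0) := by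
    calc (0 : ℝ) ≤ (∑ i ∈ s, (a i ^ 2 - c i ^ 2)) * (∑ k ∈ s, (a k ^ 2 - c k ^ 2)) +
          (∑ i ∈ s, (2 * a i * c i)) * (∑ k ∈ s, (2 * a k * c k)) :=
        add_nonneg (mul_self_nonneg _) (mul_self_nonneg _)
      _ = ∑ i ∈ s, ∑ k ∈ s, ((a i ^ 2 - c i ^ 2) * (a k ^ 2 - c k ^ 2) +
            (2 * a i * c i) * (2 * a k * c k)) := by
        rw [Finset.sum_mul_sum, Finset.sum_mul_sum, ← Finset.sum_add_distrib]
        refine Finset.sum_congr rfl fun i _ => ?_
        rw [← Finset.sum_add_distrib]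
      _ ≤ _ := Finset.sum_le_sum fun i his => Finset.sum_le_sum fun k hks => hle i his k hks
  have hval : ∑ i ∈ s, ∑ k ∈ s, ((-1 / 2 : ℝ) + if i = k then 3 / 2 else 0) =
      (s.card : ℝ) * (3 - s.card) / 2 := by
    have h1 : ∀ i ∈ s, ∑ k ∈ s, ((-1 / 2 : ℝ) + if i = k then 3 / 2 else 0) =
        (3 - s.card) / 2 := by
      intro i his
      rw [Finset.sum_add_distrib, Finset.sum_const, Finset.sum_ite_eq, if_pos his, nsmul_eq_mul]
      ring
    rw [Finset.sum_congr rfl h1, Finset.sum_const, nsmul_eq_mul]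
    ring
  rw [hval] at hsum
  by_contra hcon
  have h4 : (4 : ℝ) ≤ s.card := by
    have : 4 ≤ s.card := by omega
    exact_mod_cast this
  nlinarith

end Pool.Agent.Helper71.CY.PL3
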